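import Mathlib

set_option autoImplicit false

open Set Topology Filter

namespace Pool.Agent.H66.Moore

/-- The building block: finite sequences, isolated points, and infinite sequences. -/
inductive B : Type
  | s (l : List ℕ) : B
  | e (l : List ℕ) (n : ℕ) : B
  | y (x : ℕ → ℕ) : B

/-- The first `k` values of `x`. -/
def ini (x : ℕ → ℕ) (k : ℕ) : List ℕ := (List.range k).map x

@[simp] lemma ini_length (x : ℕ → ℕ) (k : ℕ) : (ini x k).length = k := by simp [ini]

lemma ini_take (x : ℕ → ℕ) (k m : ℕ) (h : k ≤ m) : (ini x m).take k = ini x k := by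
  simp [ini, ← List.map_take, List.take_range, Nat.min_eq_left h]

lemma ini_succ (x : ℕ → ℕ) (k : ℕ) : ini x (k + 1) = ini x k ++ [x k] := by
  simp [ini, List.range_succ]

lemma ini_ne {x x' : ℕ → ℕ} (h : x ≠ x') : ∃ k0, ∀ k, k0 ≤ k → ini x k ≠ ini x' k := by
  obtain ⟨a, ha⟩ := Function.ne_iff.mp h
  refine ⟨a + 1, fun k hk he => ha ?_⟩
  have h1 : (ini x k).take (a + 1) = (ini x' k).take (a + 1) := by rw [he]
  rw [ini_take _ _ _ hk, ini_take _ _ _ hk, ini_succ, ini_succ] at h1
  have h2 := List.append_inj_right' h1 rfl
  simpa using h2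

/-- The point is an infinite sequence. -/
def isY : B → Prop
  | .y _ => True
  | _ => False

/-- The point is a finite sequence. -/
def isS : B → Prop
  | .s _ => True
  | _ => False

/-- The isolated point `e l n` is `m`-close to the given point of the block. -/
def near : B → List ℕ → ℕ → ℕ → Prop
  | .s l', l, n, m => l = l' ∧ m ≤ n
  | .y x, l, n, m => m ≤ l.length ∧ l = ini x l.length ∧ n = x l.length
  | .e _ _, _, _, _ => False

lemma near_mono {b : B} {l : List ℕ} {n m m' : ℕ} (h : m' ≤ m) (hn : near b l n m) :
    near b l n m' := by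
  cases b with
  | s l' => exact ⟨hn.1, h.trans hn.2⟩
  | e _ _ => exact hn.elim
  | y x => exact ⟨h.trans hn.1, hn.2⟩

/-- The underlying set of the space. -/
abbrev X : Type := Option (ℕ × (ℕ → B))

/-- Basic neighbourhoods in the fine topology. -/
def Nb : X → ℕ → Set X
  | none, j => {q | q = none ∨ ∃ c p, q = some (c, p) ∧ j < c ∧ (∀ i < j, isY (p i)) ∧ ¬ isS (p j)}
  | some (c, p), m => {q | q = some (c, p) ∨ ∃ i < c, (∀ i' < i, isY (p i')) ∧
      (∀ i', i < i' → i' < c → isS (p i')) ∧ ∃ l n, near (p i) l n m ∧
        q = some (c, Function.update p i (.e l n))}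

lemma self_mem_Nb (p : X) (m : ℕ) : p ∈ Nb p m := by
  cases p with
  | none => exact Or.inl rfl
  | some p => exact Or.inl rfl

lemma isY_not_isS {b : B} (h : isY b) : ¬ isS b := by
  cases b <;> simp_all [isY, isS]

lemma Nb_anti (p : X) {m m' : ℕ} (h : m' ≤ m) : Nb p m ⊆ Nb p m' := by
  cases p with
  | none =>
    rintro q (hq | ⟨c, p, hq, hc, hY, hS⟩)
    · exact Or.inl hq
    · refine Or.inr ⟨c, p, hq, lt_of_le_of_lt h hc, fun i hi => hY i (lt_of_lt_of_le hi h), ?_⟩
      rcases h.eq_or_lt with rfl | h1
      · exact hS
      · exact isY_not_isS (hY m' h1)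
  | some p =>
    rintro q (hq | ⟨i, hi, h1, h2, l, n, hn, hq⟩)
    · exact Or.inl hq
    · exact Or.inr ⟨i, hi, h1, h2, l, n, near_mono h hn, hq⟩

/-- The fine topology. -/
@[instance_reducible] def T1 : TopologicalSpace X where
  IsOpen U := ∀ p ∈ U, ∃ m, Nb p m ⊆ U
  isOpen_univ := fun p _ => ⟨0, subset_univ _⟩
  isOpen_inter := by
    intro U V hU hV p hp
    obtain ⟨m, hm⟩ := hU p hp.1
    obtain ⟨m', hm'⟩ := hV p hp.2
    exact ⟨max m m', subset_inter ((Nb_anti p (le_max_left _ _)).trans hm)
      ((Nb_anti p (le_max_right _ _)).trans hm')⟩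
  isOpen_sUnion := by
    intro S hS p hp
    obtain ⟨U, hU, hpU⟩ := hp
    obtain ⟨m, hm⟩ := hS U hU p hpU
    exact ⟨m, hm.trans (subset_sUnion_of_mem hU)⟩

lemma isOpen_T1 {U : Set X} : @IsOpen X T1 U ↔ ∀ p ∈ U, ∃ m, Nb p m ⊆ U := Iff.rfl

/-- A point with an isolated coordinate at a place below `c` is isolated. -/
lemma Nb_of_e {c : ℕ} {p : ℕ → B} {i : ℕ} (hi : i < c) {l : List ℕ} {n : ℕ} (hp : p i = .e l n)
    (m : ℕ) : Nb (some (c, p)) m = {some (c, p)} := by
  ext q
  constructor
  · rintro (hq | ⟨i', hi', h1, h2, l', n', hn, hq⟩)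
    · exact hq
    · exfalso
      rcases lt_trichotomy i i' with h | h | h
      · have := h1 i h
        rw [hp] at this
        exact this
      · subst h
        rw [hp] at hn
        exact hn
      · have := h2 i h hi
        rw [hp] at this
        exact this
  · intro hq
    exact Or.inl hq

lemma Nb_open (p : X) (m : ℕ) : @IsOpen X T1 (Nb p m) := by
  rw [isOpen_T1]
  cases p with
  | none =>
    rintro q (hq | ⟨c, p, hq, hc, hY, hS⟩)
    · subst hq
      exact ⟨m, subset_rfl⟩
    · subst hq
      refine ⟨0, ?_⟩
      rintro q (hq | ⟨i, hi, h1, h2, l, n, hn, hq⟩)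
      · subst hq
        exact Or.inr ⟨c, p, rfl, hc, hY, hS⟩
      · subst hq
        refine Or.inr ⟨c, _, rfl, hc, ?_, ?_⟩
        · intro i' hi'
          rcases eq_or_ne i' i with h | h
          · subst h
            exact (hS (h2 m hi' hc)).elim
          · rw [Function.update_of_ne h]
            exact hY i' hi'
        · rcases eq_or_ne m i with h | h
          · subst h
            simp [isS]
          · rw [Function.update_of_ne h]
            exact hS
  | some cp =>
    obtain ⟨c, p⟩ := cp
    rintro q (hq | ⟨i, hi, h1, h2, l, n, hn, hq⟩)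
    · subst hq
      exact ⟨m, subset_rfl⟩
    · refine ⟨0, ?_⟩
      subst hq
      rw [Nb_of_e (i := i) hi (l := l) (n := n) (by simp)]
      rintro q rfl
      exact Or.inr ⟨i, hi, h1, h2, l, n, hn, rfl⟩

/-- Size of an isolated coordinate. -/
def esize : B → ℕ
  | .e l n => l.length + n + 1
  | _ => 0

/-- The neighbourhood bases form a development: for large `n`, the only basic neighbourhood of
index `n` containing `x` is that of `x` itself. -/
lemma dev (x : X) : ∃ n0, ∀ n, n0 ≤ n → ∀ p, x ∈ Nb p n → p = x := by
  cases x with
  | none =>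
    refine ⟨0, fun n _ p hp => ?_⟩
    cases p with
    | none => rfl
    | some cp =>
      obtain ⟨c, p⟩ := cp
      rcases hp with hp | ⟨i, hi, h1, h2, l, n, hn, hq⟩
      · exact hp.symm
      · simp at hq
  | some cx =>
    obtain ⟨c, x⟩ := cx
    refine ⟨c + ∑ i ∈ Finset.range c, esize (x i), fun n hn p hp => ?_⟩
    cases p with
    | none =>
      exfalso
      rcases hp with hp | ⟨c', p', hq, hc, -, -⟩
      · simp at hp
      · simp only [Option.some.injEq, Prod.mk.injEq] at hq
        have : c = c' := hq.1
        omega
    | some cp =>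
      obtain ⟨c', p⟩ := cp
      rcases hp with hp | ⟨i, hi, h1, h2, l, n', hn', hq⟩
      · exact hp.symm
      · exfalso
        simp only [Option.some.injEq, Prod.mk.injEq] at hq
        obtain ⟨rfl, hq⟩ := hq
        have hxi : x i = .e l n' := by rw [hq]; simp
        have hle : esize (x i) ≤ ∑ i ∈ Finset.range c, esize (x i) :=
          Finset.single_le_sum (f := fun i => esize (x i)) (fun _ _ => Nat.zero_le _)
            (Finset.mem_range.mpr hi)
        have hsz : esize (x i) = l.length + n' + 1 := by rw [hxi]; rfl
        have h3 : n ≤ l.length ∨ n ≤ n' := by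
          cases hpi : p i with
          | s l' => rw [hpi] at hn'; exact Or.inr hn'.2
          | e _ _ => rw [hpi] at hn'; exact hn'.elim
          | y x => rw [hpi] at hn'; exact Or.inl hn'.1
        omega

/-- Truncation of a point of the block at height `k`. -/
def r (k : ℕ) : B → List ℕ × ℕ
  | .s l => (l.take k, 0)
  | .y x => (ini x k, 0)
  | .e l n => (l.take k, if l.length < k ∧ n < k then n + 1 else 0)

lemma r_near {b : B} {l : List ℕ} {n k : ℕ} (h : near b l n k) : r k (.e l n) = r k b := by
  cases b with
  | s l' =>
    obtain ⟨rfl, h2⟩ := h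
    simp only [r, Prod.mk.injEq, true_and]
    rw [if_neg (by omega)]
  | e _ _ => exact h.elim
  | y x =>
    obtain ⟨h1, h2, h3⟩ := h
    simp only [r, Prod.mk.injEq]
    rw [if_neg (by omega), h2, ini_take _ _ _ (by simpa using h1)]
    simp

/-- The image type of the coordinate functions defining the coarse topology. -/
abbrev D : Type := Option (ℕ × List (List ℕ × ℕ))

open Classical in
/-- The coordinate functions defining the coarse topology. -/
noncomputable def phi : X → ℕ → D
  | none, _ => none
  | some (c, p), k => if k ≤ c ∧ ∀ i < k, (r k (p i)).1.length = k then none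
      else some (c, (List.range k).map (fun i => r k (p i)))

lemma phi_none (k : ℕ) : phi none k = none := rfl

lemma phi_congr {c : ℕ} {p q : ℕ → B} {k : ℕ} (h : ∀ i < k, r k (p i) = r k (q i)) :
    phi (some (c, p)) k = phi (some (c, q)) k := by
  have h1 : (List.range k).map (fun i => r k (p i)) = (List.range k).map (fun i => r k (q i)) := by
    apply List.map_congr_left
    intro i hi
    exact h i (List.mem_range.mp hi)
  have h2 : (∀ i < k, (r k (p i)).1.length = k) ↔ (∀ i < k, (r k (q i)).1.length = k) := by
    constructor
    · intro h3 i hi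
      rw [← h i hi]
      exact h3 i hi
    · intro h3 i hi
      rw [h i hi]
      exact h3 i hi
  simp only [phi, h1, h2]

/-- Each coordinate function is constant on a basic neighbourhood. -/
lemma phi_Nb (p : X) (k : ℕ) : ∀ q ∈ Nb p k, phi q k = phi p k := by
  cases p with
  | none =>
    rintro q (rfl | ⟨c, p, rfl, hc, hY, hS⟩)
    · rfl
    · rw [phi_none]
      simp only [phi]
      rw [if_pos]
      refine ⟨hc.le, fun i hi => ?_⟩
      have := hY i hi
      cases hpi : p i with
      | s l => rw [hpi] at this; exact this.elim
      | e l n => rw [hpi] at this; exact this.elim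
      | y x => simp [r]
  | some cp =>
    obtain ⟨c, p⟩ := cp
    rintro q (rfl | ⟨i, hi, h1, h2, l, n, hn, rfl⟩)
    · rfl
    · apply phi_congr
      intro i' _
      rcases eq_or_ne i' i with h | h
      · subst h
        rw [Function.update_self]
        exact r_near hn
      · rw [Function.update_of_ne h]

instance : TopologicalSpace D := ⊥
instance : DiscreteTopology D := ⟨rfl⟩

/-- The coarse topology. -/
@[instance_reducible] noncomputable def T2 : TopologicalSpace X := TopologicalSpace.induced phi inferInstance

lemma T1_le_T2 : T1 ≤ T2 := by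
  have : @Continuous X (ℕ → D) T1 inferInstance phi := by
    let := T1
    refine continuous_pi fun k => ?_
    refine continuous_def.mpr fun s _ => ?_
    rw [isOpen_T1]
    intro p hp
    refine ⟨k, fun q hq => ?_⟩
    have h1 : phi q k = phi p k := phi_Nb p k q hq
    change phi q k ∈ s
    rw [h1]
    exact hp
  exact continuous_iff_le_induced.mp this

lemma r_ne_of_ne {b b' : B} (h : b ≠ b') : ∃ k0, ∀ k, k0 ≤ k → r k b ≠ r k b' := by
  have key : ∀ (l : List ℕ) (x : ℕ → ℕ), ∀ k, l.length + 1 ≤ k → l.take k ≠ ini x k := by
    intro l x k hk he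
    have := congrArg List.length he
    simp at this
    omega
  cases b with
  | s l =>
    cases b' with
    | s l' =>
      refine ⟨max l.length l'.length, fun k hk he => h ?_⟩
      simp only [r, Prod.mk.injEq] at he
      rw [List.take_of_length_le (by omega), List.take_of_length_le (by omega)] at he
      rw [he.1]
    | e l' n' =>
      refine ⟨max l'.length n' + 1, fun k hk he => ?_⟩
      simp only [r, Prod.mk.injEq] at he
      rw [if_pos (by omega)] at he
      omega
    | y x' =>
      refine ⟨l.length + 1, fun k hk he => ?_⟩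
      simp only [r, Prod.mk.injEq] at he
      exact key l x' k hk he.1
  | e l n =>
    cases b' with
    | s l' =>
      refine ⟨max l.length n + 1, fun k hk he => ?_⟩
      simp only [r, Prod.mk.injEq] at he
      rw [if_pos (by omega)] at he
      omega
    | e l' n' =>
      refine ⟨max (max l.length l'.length) (max n n') + 1, fun k hk he => h ?_⟩
      simp only [r, Prod.mk.injEq] at he
      rw [List.take_of_length_le (by omega), List.take_of_length_le (by omega),
        if_pos (by omega), if_pos (by omega)] at he
      rw [he.1]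
      congr 1
      omega
    | y x' =>
      refine ⟨l.length + 1, fun k hk he => ?_⟩
      simp only [r, Prod.mk.injEq] at he
      exact key l x' k hk he.1
  | y x =>
    cases b' with
    | s l' =>
      refine ⟨l'.length + 1, fun k hk he => ?_⟩
      simp only [r, Prod.mk.injEq] at he
      exact key l' x k hk he.1.symm
    | e l' n' =>
      refine ⟨l'.length + 1, fun k hk he => ?_⟩
      simp only [r, Prod.mk.injEq] at he
      exact key l' x k hk he.1.symm
    | y x' =>
      have hx : x ≠ x' := fun hx => h (by rw [hx])
      obtain ⟨k0, hk0⟩ := ini_ne hx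
      refine ⟨k0, fun k hk he => hk0 k hk ?_⟩
      simp only [r, Prod.mk.injEq] at he
      exact he.1

lemma phi_some_of_lt {c : ℕ} {p : ℕ → B} {k : ℕ} (h : c < k) :
    phi (some (c, p)) k = some (c, (List.range k).map (fun i => r k (p i))) := by
  simp only [phi]
  rw [if_neg]
  omega

lemma phi_eq_some {c' c : ℕ} {p' : ℕ → B} {k : ℕ} {L : List (List ℕ × ℕ)}
    (h : phi (some (c', p')) k = some (c, L)) :
    c' = c ∧ L = (List.range k).map (fun i => r k (p' i)) := by
  simp only [phi] at h
  split_ifs at h with h1
  simp only [Option.some.injEq, Prod.mk.injEq] at h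
  exact ⟨h.1, h.2.symm⟩

lemma r_eq_of_map_eq {p q : ℕ → B} {k : ℕ}
    (h : (List.range k).map (fun i => r k (p i)) = (List.range k).map (fun i => r k (q i))) :
    ∀ i < k, r k (p i) = r k (q i) := by
  intro i hi
  have := List.map_inj_left.mp h i (List.mem_range.mpr hi)
  exact this

lemma phi_injective : Function.Injective phi := by
  intro p q h
  cases p with
  | none =>
    cases q with
    | none => rfl
    | some cq =>
      obtain ⟨c, q⟩ := cq
      have := congrFun h (c + 1)
      rw [phi_none, phi_some_of_lt (Nat.lt_succ_self c)] at this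
      simp at this
  | some cp =>
    obtain ⟨c, p⟩ := cp
    cases q with
    | none =>
      have := congrFun h (c + 1)
      rw [phi_none, phi_some_of_lt (Nat.lt_succ_self c)] at this
      simp at this
    | some cq =>
      obtain ⟨c', q⟩ := cq
      have h0 := congrFun h (max c c' + 1)
      rw [phi_some_of_lt (by omega), phi_some_of_lt (by omega)] at h0
      simp only [Option.some.injEq, Prod.mk.injEq] at h0
      obtain ⟨rfl, -⟩ := h0
      congr 1
      congr 1
      funext i
      by_contra hne
      obtain ⟨k0, hk0⟩ := r_ne_of_ne hne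
      have h1 := congrFun h (max (max c i) k0 + 1)
      rw [phi_some_of_lt (by omega), phi_some_of_lt (by omega)] at h1
      simp only [Option.some.injEq, Prod.mk.injEq, true_and] at h1
      exact hk0 _ (by omega) (r_eq_of_map_eq h1 i (by omega))

lemma T2_metrizable : @TopologicalSpace.MetrizableSpace X T2 := by
  let := T2
  have h : IsEmbedding phi := ⟨⟨rfl⟩, phi_injective⟩
  exact h.metrizableSpace

lemma mem_closure_T2 {A : Set X} {q : X} (h : q ∈ @closure X T2 A) (k : ℕ) :
    ∃ a ∈ A, phi a k = phi q k := by
  let := T2
  have hc : Continuous phi := continuous_induced_dom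
  have hck : Continuous (fun x : X => phi x k) := (continuous_apply k).comp hc
  have ho : IsOpen ((fun x : X => phi x k) ⁻¹' {phi q k}) := (isOpen_discrete _).preimage hck
  obtain ⟨a, ha1, ha2⟩ := mem_closure_iff.mp h _ ho rfl
  exact ⟨a, ha2, ha1⟩

/-- The near set together with its centre is closed for the truncations. -/
lemma near_closed {b b' : B} {m : ℕ} (hne : b ≠ b')
    (hn : ∀ l n, b' = .e l n → ¬ near b l n m) :
    ∃ k0, ∀ k, k0 ≤ k → ∀ l n, near b l n m → r k (.e l n) ≠ r k b' := by
  cases b' with
  | s l' =>
    cases b with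
    | s l'' =>
      obtain ⟨k0, hk0⟩ := r_ne_of_ne hne
      refine ⟨k0, fun k hk l n hnear he => hk0 k hk ?_⟩
      obtain ⟨rfl, -⟩ := hnear
      simp only [r, Prod.mk.injEq] at he ⊢
      exact ⟨he.1, trivial⟩
    | e _ _ => exact ⟨0, fun k hk l n hnear => hnear.elim⟩
    | y x =>
      refine ⟨max l'.length (x l'.length) + 1, fun k hk l n hnear he => ?_⟩
      obtain ⟨h1, h2, h3⟩ := hnear
      simp only [r, Prod.mk.injEq] at he
      obtain ⟨he1, he2⟩ := he
      rw [List.take_of_length_le (l := l') (by omega)] at he1
      have h4 : l.length < k := by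
        have := congrArg List.length he1
        simp at this
        omega
      rw [List.take_of_length_le (by omega)] at he1
      subst he1
      rw [if_pos (by omega)] at he2
      omega
  | e l' n' =>
    refine ⟨max l'.length n' + 1, fun k hk l n hnear he => ?_⟩
    simp only [r, Prod.mk.injEq] at he
    obtain ⟨he1, he2⟩ := he
    rw [if_pos (c := l'.length < k ∧ n' < k) (by omega)] at he2
    split_ifs at he2 with h1
    · rw [List.take_of_length_le (by omega), List.take_of_length_le (by omega)] at he1
      subst he1
      have : n = n' := by omega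
      subst this
      exact hn _ _ rfl hnear
  | y x' =>
    cases b with
    | s l'' =>
      refine ⟨l''.length + 1, fun k hk l n hnear he => ?_⟩
      obtain ⟨rfl, -⟩ := hnear
      simp only [r, Prod.mk.injEq] at he
      have := congrArg List.length he.1
      simp at this
      omega
    | e _ _ => exact ⟨0, fun k hk l n hnear => hnear.elim⟩
    | y x =>
      have hx : x ≠ x' := fun hx => hne (by rw [hx])
      obtain ⟨k0, hk0⟩ := ini_ne hx
      refine ⟨k0, fun k hk l n hnear he => hk0 k hk ?_⟩
      obtain ⟨h1, h2, h3⟩ := hnear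
      simp only [r, Prod.mk.injEq] at he
      have h4 : k ≤ l.length := by
        have := congrArg List.length he.1
        simp at this
        omega
      rw [← he.1, h2, ini_take _ _ _ h4]

/-- Closures of basic neighbourhoods of ordinary points in the coarse topology. -/
lemma closure_Nb_some (c : ℕ) (p : ℕ → B) (m : ℕ) :
    @closure X T2 (Nb (some (c, p)) m) ⊆ Nb (some (c, p)) m := by
  intro q hq
  -- every element of the neighbourhood has first coordinate c
  have hform : ∀ a ∈ Nb (some (c, p)) m, ∃ a', a = some (c, a') := by
    rintro a (rfl | ⟨i, hi, h1, h2, l, n, hn, rfl⟩)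
    · exact ⟨_, rfl⟩
    · exact ⟨_, rfl⟩
  cases q with
  | none =>
    exfalso
    obtain ⟨a, ha, he⟩ := mem_closure_T2 hq (c + 1)
    obtain ⟨a', rfl⟩ := hform a ha
    rw [phi_none, phi_some_of_lt (Nat.lt_succ_self c)] at he
    simp at he
  | some cq =>
    obtain ⟨c', q⟩ := cq
    have hcc : c' = c := by
      obtain ⟨a, ha, he⟩ := mem_closure_T2 hq (max c c' + 1)
      obtain ⟨a', rfl⟩ := hform a ha
      rw [phi_some_of_lt (by omega), phi_some_of_lt (by omega)] at he
      simp only [Option.some.injEq, Prod.mk.injEq] at he
      exact he.1.symm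
    subst hcc
    have hcl : ∀ k, c' < k → ∃ a', some (c', a') ∈ Nb (some (c', p)) m ∧
        ∀ i < k, r k (a' i) = r k (q i) := by
      intro k hk
      obtain ⟨a, ha, he⟩ := mem_closure_T2 hq k
      obtain ⟨a', rfl⟩ := hform a ha
      rw [phi_some_of_lt hk, phi_some_of_lt hk] at he
      simp only [Option.some.injEq, Prod.mk.injEq, true_and] at he
      exact ⟨a', ha, r_eq_of_map_eq he⟩
    by_contra hqN
    have hqp : q ≠ p := by
      rintro rfl
      exact hqN (self_mem_Nb _ _)
    obtain ⟨i, hi⟩ := Function.ne_iff.mp hqp
    obtain ⟨k1, hk1⟩ := r_ne_of_ne hi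
    by_cases h2 : ∃ i2, i2 ≠ i ∧ q i2 ≠ p i2
    · obtain ⟨i2, hi2, hq2⟩ := h2
      obtain ⟨k2, hk2⟩ := r_ne_of_ne hq2
      obtain ⟨a', ha, hr⟩ := hcl (max (max c' (max i i2)) (max k1 k2) + 1) (by omega)
      have e1 := hr i (by omega)
      have e2 := hr i2 (by omega)
      have n1 : a' i ≠ p i := by
        intro h
        rw [h] at e1
        exact hk1 _ (by omega) e1.symm
      have n2 : a' i2 ≠ p i2 := by
        intro h
        rw [h] at e2
        exact hk2 _ (by omega) e2.symm
      rcases ha with ha | ⟨j, hj, -, -, l, n, -, ha⟩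
      · simp only [Option.some.injEq, Prod.mk.injEq, true_and] at ha
        exact n1 (by rw [ha])
      · simp only [Option.some.injEq, Prod.mk.injEq, true_and] at ha
        subst ha
        rcases eq_or_ne i j with h | h
        · subst h
          rw [Function.update_of_ne hi2] at n2
          exact n2 rfl
        · rw [Function.update_of_ne h] at n1
          exact n1 rfl
    · push Not at h2
      have hn : ∀ l n, q i = .e l n → i < c' → (∀ i' < i, isY (p i')) →
          (∀ i', i < i' → i' < c' → isS (p i')) → ¬ near (p i) l n m := by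
        intro l n hqi hic h3 h4 h5
        apply hqN
        refine Or.inr ⟨i, hic, h3, h4, l, n, h5, ?_⟩
        congr 1
        congr 1
        funext i2
        rcases eq_or_ne i2 i with h | h
        · subst h
          rw [Function.update_self]
          exact hqi
        · rw [Function.update_of_ne h]
          exact h2 i2 h
      by_cases hact : i < c' ∧ (∀ i' < i, isY (p i')) ∧ (∀ i', i < i' → i' < c' → isS (p i'))
      · obtain ⟨k3, hk3⟩ := near_closed (b := p i) (b' := q i) (m := m) (Ne.symm hi)
          (fun l n h => hn l n h hact.1 hact.2.1 hact.2.2)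
        obtain ⟨a', ha, hr⟩ := hcl (max (max c' i) (max k1 k3) + 1) (by omega)
        have e1 := hr i (by omega)
        have n1 : a' i ≠ p i := by
          intro h
          rw [h] at e1
          exact hk1 _ (by omega) e1.symm
        rcases ha with ha | ⟨j, hj, -, -, l, n, hnear, ha⟩
        · simp only [Option.some.injEq, Prod.mk.injEq, true_and] at ha
          exact n1 (by rw [ha])
        · simp only [Option.some.injEq, Prod.mk.injEq, true_and] at ha
          subst ha
          rcases eq_or_ne i j with h | h
          · subst h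
            rw [Function.update_self] at e1
            exact hk3 _ (by omega) l n hnear e1
          · rw [Function.update_of_ne h] at n1
            exact n1 rfl
      · obtain ⟨a', ha, hr⟩ := hcl (max (max c' i) k1 + 1) (by omega)
        have e1 := hr i (by omega)
        have n1 : a' i ≠ p i := by
          intro h
          rw [h] at e1
          exact hk1 _ (by omega) e1.symm
        rcases ha with ha | ⟨j, hj, hj1, hj2, l, n, hnear, ha⟩
        · simp only [Option.some.injEq, Prod.mk.injEq, true_and] at ha
          exact n1 (by rw [ha])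
        · simp only [Option.some.injEq, Prod.mk.injEq, true_and] at ha
          subst ha
          rcases eq_or_ne i j with h | h
          · subst h
            exact hact ⟨hj, hj1, hj2⟩
          · rw [Function.update_of_ne h] at n1
            exact n1 rfl

lemma r_length_of_isY {b : B} (h : isY b) (k : ℕ) : (r k b).1.length = k := by
  cases b with
  | s l => exact h.elim
  | e l n => exact h.elim
  | y x => simp [r]

lemma r_length_of_not_isY {b : B} (h : ¬ isY b) : ∃ k0, ∀ k, k0 ≤ k → (r k b).1.length < k := by
  cases b with
  | s l =>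
    refine ⟨l.length + 1, fun k hk => ?_⟩
    simp [r]
    omega
  | e l n =>
    refine ⟨l.length + 1, fun k hk => ?_⟩
    simp [r]
    omega
  | y x => exact (h trivial).elim

/-- Closures of basic neighbourhoods of the limit point in the coarse topology. -/
lemma closure_Nb_none (j : ℕ) : @closure X T2 (Nb none (j + 1)) ⊆ Nb none j := by
  intro q hq
  cases q with
  | none => exact Or.inl rfl
  | some cq =>
    obtain ⟨c, q⟩ := cq
    -- first: j < c
    have hjc : j < c := by
      by_contra hcon
      obtain ⟨a, ha, he⟩ := mem_closure_T2 hq (j + 1)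
      rw [phi_some_of_lt (by omega)] at he
      rcases ha with rfl | ⟨c', p', rfl, hc', -, -⟩
      · rw [phi_none] at he
        simp at he
      · have := (phi_eq_some he).1
        omega
    have hY : ∀ i ≤ j, isY (q i) := by
      intro i hij
      by_contra hcon
      obtain ⟨k0, hk0⟩ := r_length_of_not_isY hcon
      obtain ⟨a, ha, he⟩ := mem_closure_T2 hq (max k0 (i + 1))
      have hq' : phi (some (c, q)) (max k0 (i + 1)) =
          some (c, (List.range (max k0 (i + 1))).map (fun i' => r (max k0 (i + 1)) (q i'))) := by
        simp only [phi]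
        rw [if_neg]
        rintro ⟨-, h⟩
        have h1 := h i (by omega)
        have h2 := hk0 (max k0 (i + 1)) (by omega)
        omega
      rw [hq'] at he
      rcases ha with rfl | ⟨c', p', rfl, hc', hp', -⟩
      · rw [phi_none] at he
        simp at he
      · have h3 := (phi_eq_some he).2
        have h4 := r_eq_of_map_eq h3 i (by omega)
        have h5 := r_length_of_isY (hp' i (by omega)) (max k0 (i + 1))
        have h6 := hk0 (max k0 (i + 1)) (by omega)
        rw [← h4] at h5
        omega
    exact Or.inr ⟨c, q, rfl, hjc, fun i hi => hY i hi.le, isY_not_isS (hY j le_rfl)⟩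

lemma closure_Nb (p : X) (m : ℕ) : ∃ m', @closure X T2 (Nb p m') ⊆ Nb p m := by
  cases p with
  | none => exact ⟨m + 1, closure_Nb_none m⟩
  | some cp => exact ⟨m, closure_Nb_some cp.1 cp.2 m⟩

end Pool.Agent.H66.Moore
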