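import Pool.Agent.H66.Moore

set_option autoImplicit false

open Set Topology Filter

namespace Pool.Agent.H66.MooreB

open Pool.Agent.H66.Moore

/-- Points used in the inductive transmission. -/
def pt (y : ℕ → ℕ → ℕ) (j : ℕ) (t : List (List ℕ)) : ℕ → B :=
  fun i => if i < j then .y (y i) else .s (t.getD (i - j) [])

lemma pt_lt (y : ℕ → ℕ → ℕ) {j i : ℕ} (t : List (List ℕ)) (h : i < j) : pt y j t i = .y (y i) := by
  simp [pt, h]

lemma pt_ge (y : ℕ → ℕ → ℕ) {j i : ℕ} (t : List (List ℕ)) (h : j ≤ i) :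
    pt y j t i = .s (t.getD (i - j) []) := by
  simp [pt, Nat.not_lt.mpr h]

/-- A sequence hitting prescribed thresholds on its own initial segments. -/
lemma exists_seq (M : ℕ → List ℕ → ℕ) : ∃ x : ℕ → ℕ, ∀ n, x n = M n (ini x n) := by
  let pre : ℕ → List ℕ := fun n => Nat.rec [] (fun n l => l ++ [M n l]) n
  have hpreS : ∀ n, pre (n + 1) = pre n ++ [M n (pre n)] := fun n => rfl
  refine ⟨fun n => M n (pre n), fun n => ?_⟩
  have : ∀ n, ini (fun n => M n (pre n)) n = pre n := by
    intro n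
    induction n with
    | zero => rfl
    | succ n ih => rw [ini_succ, ih, hpreS]
  rw [this]

/-- One step of the transmission. -/
lemma step (f : X → ℝ) (a : ℝ) (hf : ∀ p : X, ∀ ε > 0, ∃ m, ∀ q ∈ Nb p m, |f q - f p| < ε)
    (c j : ℕ) (hj : j < c) (y : ℕ → ℕ → ℕ)
    (h : ∀ t : List (List ℕ), f (some (c, pt y j t)) = a) :
    ∃ y' : ℕ → ℕ → ℕ, ∀ t : List (List ℕ), f (some (c, pt y' (j + 1) t)) = a := by
  -- thresholds
  have hm : ∀ (t : List (List ℕ)) (k : ℕ) (l : List ℕ), ∃ m, ∀ q ∈ Nb (some (c, pt y j (l :: t))) m,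
      |f q - a| < 1 / ((k : ℝ) + 1) := by
    intro t k l
    obtain ⟨m, hm⟩ := hf (some (c, pt y j (l :: t))) (1 / ((k : ℝ) + 1)) (by positivity)
    refine ⟨m, fun q hq => ?_⟩
    have := hm q hq
    rwa [h] at this
  choose m hm using hm
  obtain ⟨g, hg⟩ := exists_surjective_nat (List (List ℕ) × ℕ)
  obtain ⟨x, hx⟩ := exists_seq (fun n l => m (g (Nat.unpair n).1).1 (g (Nat.unpair n).1).2 l)
  refine ⟨Function.update y j x, fun t => ?_⟩
  set P : ℕ → B := pt (Function.update y j x) (j + 1) t with hP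
  have hPj : P j = .y x := by
    rw [hP, pt_lt _ _ (Nat.lt_succ_self j), Function.update_self]
  -- the key estimate
  have key : ∀ k : ℕ, |f (some (c, P)) - a| ≤ 2 * (1 / ((k : ℝ) + 1)) := by
    intro k
    obtain ⟨m0, hm0⟩ := hf (some (c, P)) (1 / ((k : ℝ) + 1)) (by positivity)
    obtain ⟨b, hb⟩ := hg (t, k)
    set n := Nat.pair b m0 with hn
    have hn1 : (Nat.unpair n).1 = b := by rw [hn, Nat.unpair_pair]
    have hn2 : m0 ≤ n := Nat.right_le_pair b m0
    have hxn : x n = m t k (ini x n) := by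
      have := hx n
      rw [hn1, hb] at this
      exact this
    set q : ℕ → B := Function.update P j (.e (ini x n) (x n)) with hq
    have hq1 : some (c, q) ∈ Nb (some (c, P)) m0 := by
      refine Or.inr ⟨j, hj, ?_, ?_, ini x n, x n, ?_, rfl⟩
      · intro i hi
        rw [hP, pt_lt _ _ (by omega)]
        trivial
      · intro i hi _
        rw [hP, pt_ge _ _ (by omega)]
        trivial
      · rw [hPj]
        refine ⟨?_, ?_, ?_⟩
        · simpa using hn2
        · simp
        · simp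
    have hq2 : some (c, q) ∈ Nb (some (c, pt y j (ini x n :: t))) (m t k (ini x n)) := by
      refine Or.inr ⟨j, hj, ?_, ?_, ini x n, x n, ?_, ?_⟩
      · intro i hi
        rw [pt_lt _ _ hi]
        trivial
      · intro i hi _
        rw [pt_ge _ _ hi.le]
        trivial
      · rw [pt_ge _ _ le_rfl]
        refine ⟨?_, ?_⟩
        · simp
        · rw [hxn]
      · congr 1
        congr 1
        rw [hq]
        funext i
        rcases lt_trichotomy i j with hi | hi | hi
        · rw [Function.update_of_ne hi.ne, Function.update_of_ne hi.ne, hP, pt_lt _ _ (by omega),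
            pt_lt _ _ hi, Function.update_of_ne hi.ne]
        · subst hi
          rw [Function.update_self, Function.update_self]
        · rw [Function.update_of_ne hi.ne', Function.update_of_ne hi.ne', hP, pt_ge _ _ (by omega),
            pt_ge _ _ hi.le]
          have : i - j = (i - (j + 1)) + 1 := by omega
          rw [this, List.getD_cons_succ]
    have e1 := hm0 _ hq1
    have e2 := hm t k (ini x n) _ hq2
    have : f (some (c, P)) - a = (f (some (c, q)) - a) - (f (some (c, q)) - f (some (c, P))) := by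
      ring
    rw [this]
    calc |(f (some (c, q)) - a) - (f (some (c, q)) - f (some (c, P)))|
        ≤ |f (some (c, q)) - a| + |f (some (c, q)) - f (some (c, P))| := abs_sub _ _
      _ ≤ 2 * (1 / ((k : ℝ) + 1)) := by linarith
  have hlim : Tendsto (fun k : ℕ => 2 * (1 / ((k : ℝ) + 1))) atTop (𝓝 (2 * 0)) :=
    tendsto_one_div_add_atTop_nhds_zero_nat.const_mul 2
  rw [mul_zero] at hlim
  have := ge_of_tendsto' hlim key
  have h0 : |f (some (c, P)) - a| = 0 := le_antisymm this (abs_nonneg _)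
  have := abs_eq_zero.mp h0
  linarith

lemma closure_basis (p : X) (O : Set X) (hO : @IsOpen X T1 O) (hp : p ∈ O) :
    ∃ D : Set X, @IsOpen X T1 D ∧ p ∈ D ∧ @closure X T2 D ⊆ O := by
  obtain ⟨m, hm⟩ := isOpen_T1.mp hO p hp
  obtain ⟨m', hm'⟩ := closure_Nb p m
  exact ⟨Nb p m', Nb_open p m', self_mem_Nb p m', hm'.trans hm⟩

lemma t2_T1 : @T2Space X T1 := by
  have h2 : @T2Space X T2 := by
    let := T2
    have := T2_metrizable
    infer_instance
  exact @T2Space.mk X T1 fun x y hxy => by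
    obtain ⟨u, v, hu, hv, hx, hy, hd⟩ := (@T2Space.t2 X T2 h2) hxy
    exact ⟨u, v, T1_le_T2 u hu, T1_le_T2 v hv, hx, hy, hd⟩

lemma regular_T1 : @RegularSpace X T1 := by
  let := T1
  refine RegularSpace.of_exists_mem_nhds_isClosed_subset ?_
  intro p s hs
  obtain ⟨O, hOs, hO, hpO⟩ := mem_nhds_iff.mp hs
  obtain ⟨D, hD, hpD, hDO⟩ := closure_basis p O hO hpO
  refine ⟨@closure X T2 D, ?_, ?_, hDO.trans hOs⟩
  · exact mem_of_superset (hD.mem_nhds hpD) (@subset_closure X T2 D)
  · exact (@isClosed_closure X T2 D).mono T1_le_T2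

lemma t3_T1 : @T3Space X T1 := by
  let := T1
  have := t2_T1
  have := regular_T1
  infer_instance

/-- The closed set of the counterexample. -/
def F : Set X := (Nb none 0)ᶜ

/-- A continuous real function which is constant on `F` has the same value at the limit point. -/
lemma transmission (f : X → ℝ) (hf : @Continuous X ℝ T1 _ f) (a : ℝ) (hF : ∀ x ∈ F, f x = a) :
    f none = a := by
  have hgm : ∀ p : X, ∀ ε > 0, ∃ m, ∀ q ∈ Nb p m, |f q - f p| < ε := by
    let := T1
    intro p ε hε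
    have ho : IsOpen (f ⁻¹' Metric.ball (f p) ε) := Metric.isOpen_ball.preimage hf
    obtain ⟨m, hm⟩ := isOpen_T1.mp ho p (Metric.mem_ball_self hε)
    refine ⟨m, fun q hq => ?_⟩
    have := hm hq
    rwa [mem_preimage, Metric.mem_ball, Real.dist_eq] at this
  have hind : ∀ c j : ℕ, 0 < c → j ≤ c →
      ∃ y : ℕ → ℕ → ℕ, ∀ t : List (List ℕ), f (some (c, pt y j t)) = a := by
    intro c j hc
    induction j with
    | zero =>
      intro _
      refine ⟨fun _ _ => 0, fun t => ?_⟩
      apply hF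
      rintro (h | ⟨c', p', h, -, -, h2⟩)
      · simp at h
      · simp only [Option.some.injEq, Prod.mk.injEq] at h
        rw [← h.2, pt_ge _ _ le_rfl] at h2
        exact h2 trivial
    | succ j ih =>
      intro hj
      obtain ⟨y, hy⟩ := ih (by omega)
      exact step f a hgm c j (by omega) y hy
  by_contra hne
  have hpos : 0 < |a - f none| := abs_pos.mpr (fun h => hne (by linarith))
  obtain ⟨m, hm⟩ := hgm none _ hpos
  obtain ⟨y, hy⟩ := hind (m + 1) (m + 1) (by omega) le_rfl
  have hmem : (some (m + 1, pt y (m + 1) []) : X) ∈ Nb none m := by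
    refine Or.inr ⟨m + 1, _, rfl, by omega, ?_, ?_⟩
    · intro i hi
      rw [pt_lt _ _ (by omega)]
      trivial
    · rw [pt_lt _ _ (by omega)]
      exact fun h => h
  have h1 := hm _ hmem
  rw [hy []] at h1
  exact lt_irrefl _ h1

/-- Only finitely many isolated points of a block are near for one index and not near for
another. -/
lemma near_diff_finite (b : B) (m : ℕ) :
    {u : List ℕ × ℕ | near b u.1 u.2 0 ∧ ¬ near b u.1 u.2 m}.Finite := by
  cases b with
  | s l' =>
    refine ((Set.finite_Iio m).image (fun n => (l', n))).subset ?_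
    rintro ⟨l, n⟩ ⟨⟨rfl, -⟩, h2⟩
    refine ⟨n, ?_, rfl⟩
    by_contra hc
    exact h2 ⟨rfl, not_lt.mp hc⟩
  | e _ _ =>
    refine Set.finite_empty.subset ?_
    rintro ⟨l, n⟩ ⟨h, -⟩
    exact h.elim
  | y x =>
    refine ((Set.finite_Iio m).image (fun k => (ini x k, x k))).subset ?_
    rintro ⟨l, n⟩ ⟨⟨-, h1, h2⟩, h3⟩
    refine ⟨l.length, ?_, ?_⟩
    · by_contra hc
      exact h3 ⟨not_lt.mp hc, h1, h2⟩
    · change (ini x l.length, x l.length) = (l, n)
      rw [← h1]
      exact Prod.ext rfl h2.symm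

lemma Nb_diff_finite (c : ℕ) (p : ℕ → B) (m : ℕ) :
    (Nb (some (c, p)) 0 \ Nb (some (c, p)) m).Finite := by
  refine (Set.Finite.biUnion (Set.finite_Iio c) (fun i _ =>
    (near_diff_finite (p i) m).image
      (fun u => (some (c, Function.update p i (.e u.1 u.2)) : X)))).subset ?_
  rintro q ⟨hq | ⟨i, hi, h1, h2, l, n, hn, hq⟩, hq'⟩
  · exact (hq' (Or.inl hq)).elim
  · simp only [mem_iUnion]
    refine ⟨i, hi, (l, n), ⟨hn, fun h => hq' (Or.inr ⟨i, hi, h1, h2, l, n, h, hq⟩)⟩, hq.symm⟩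

lemma Nb_compact (c : ℕ) (p : ℕ → B) : @IsCompact X T1 (Nb (some (c, p)) 0) := by
  let := T1
  refine isCompact_of_finite_subcover ?_
  intro ι U hU hcov
  have hp : (some (c, p) : X) ∈ ⋃ i, U i := hcov (self_mem_Nb _ _)
  obtain ⟨i0, hi0⟩ := mem_iUnion.mp hp
  obtain ⟨m, hm⟩ := isOpen_T1.mp (hU i0) _ hi0
  obtain ⟨t, ht⟩ := (Nb_diff_finite c p m).isCompact.elim_finite_subcover U hU
    (diff_subset.trans hcov)
  classical
  refine ⟨insert i0 t, ?_⟩
  intro q hq
  by_cases h : q ∈ Nb (some (c, p)) m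
  · exact mem_biUnion (Finset.mem_insert_self i0 t) (hm h)
  · obtain ⟨i, hi, hqi⟩ := mem_iUnion₂.mp (ht ⟨hq, h⟩)
    exact mem_biUnion (Finset.mem_insert_of_mem hi) hqi

lemma Nb_countable (c : ℕ) (p : ℕ → B) : (Nb (some (c, p)) 0).Countable := by
  refine ((Set.countable_singleton (some (c, p) : X)).union
    (Set.countable_range (fun u : ℕ × List ℕ × ℕ =>
      (some (c, Function.update p u.1 (.e u.2.1 u.2.2)) : X)))).mono ?_
  rintro q (hq | ⟨i, hi, h1, h2, l, n, hn, hq⟩)
  · exact Or.inl hq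
  · exact Or.inr ⟨(i, l, n), hq.symm⟩

lemma secondCountable_T2 : @SecondCountableTopology X T2 := by
  let := T2
  have h : IsInducing phi := ⟨rfl⟩
  exact h.secondCountableTopology

lemma compl_F_mem : (none : X) ∉ F := fun h => h (self_mem_Nb none 0)

lemma F_closed : @IsClosed X T1 F := by
  let := T1
  exact (Nb_open none 0).isClosed_compl

/-- A development of the fine topology, decreasing. -/
lemma development : ∃ G : ℕ → Set (Set X),
    (∀ n : ℕ, ∀ U ∈ G n, @IsOpen X T1 U) ∧
    (∀ n : ℕ, ⋃₀ G n = Set.univ) ∧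
    ∀ x : X, ∀ O : Set X, @IsOpen X T1 O → x ∈ O →
      ∃ n : ℕ, ⋃₀ {U ∈ G n | x ∈ U} ⊆ O := by
  refine ⟨fun n => Set.range (fun p => Nb p n), ?_, ?_, ?_⟩
  · rintro n U ⟨p, rfl⟩
    exact Nb_open p n
  · intro n
    refine eq_univ_of_forall fun p => ?_
    exact ⟨Nb p n, ⟨p, rfl⟩, self_mem_Nb p n⟩
  · intro x O hO hx
    obtain ⟨m, hm⟩ := isOpen_T1.mp hO x hx
    obtain ⟨n0, hn0⟩ := dev x
    refine ⟨max m n0, ?_⟩
    rintro z ⟨U, ⟨⟨p, rfl⟩, hxU⟩, hzU⟩
    have hpx : p = x := hn0 (max m n0) (le_max_right _ _) p hxU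
    subst hpx
    exact hm (Nb_anti p (le_max_left _ _) hzU)

end Pool.Agent.H66.MooreB
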